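import Pool.Agent.QSB.StmtsS

/-!
# QSB, row RKB: the field `rank1`
-/

set_option autoImplicit false

namespace Pool.Agent.QSB.H8

open Matrix Finset Pool.Agent.QSX Pool.Agent.QSB

/-- row RKB -/
theorem rkb : RkbStmt := by
  intro X R hNR l hl
  rcases hNR l with ⟨k, hk, hip⟩ | h
  · have h1 : R.Eqv k l := Relation.EqvGen.symm _ _ (Relation.EqvGen.rel _ _ hip)
    exact absurd ((hl k h1).trans (one_smul ℝ _).symm) (hk 1)
  · have key : ∀ a b, R.Eqv a b → (a = l ↔ b = l) := by
      intro a b hab
      induction hab with
      | rel a b hab =>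
        constructor
        · rintro rfl
          exact h b hab
        · rintro rfl
          exact h a (by rwa [ip_comm] at hab)
      | refl a => exact Iff.rfl
      | symm a b _ ih => exact ih.symm
      | trans a b c _ _ ih1 ih2 => exact ih1.trans ih2
    intro l' hl'
    exact (key l' l hl').2 rfl

end Pool.Agent.QSB.H8
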